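import Pool.Agent.J4.H42.WtD

set_option autoImplicit false

namespace Pool.Agent.Results.MP_60d5ce_nt.AdditivePolynomialFibrations

open Polynomial Pool.Agent.J4.H42.Wt

/-- **The Birch-Swinnerton-Dyer conjecture for superelliptic curves with branch points given by
additive polynomials, of unbounded genus and unbounded height, for a fixed degree `p`.**

Let `p` be a prime, `k` a finite field of characteristic `c = 1` modulo `p`, and `r ≥ 1` prime to `p`
and `c`, with the `p r`-th roots of unity in `k`. Let `P_i(x)` be additive polynomials over `k`: all
exponents are powers of `c`. Let `f_i(t)` be polynomials over `k` of weight at most `D`: all exponents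
are sums of at most `D` powers of `c` (repetitions are allowed and `1 = c ^ 0` is a power of `c`, so
this holds if `deg f_i ≤ D`; but the degree is not bounded in terms of `D`, and for `D = 1` these are
the additive polynomials plus constants). Let `B_l(x)`, `g_l(t)`, `l = 1, ..., h`, be polynomials of the
same two kinds (`h = 0` is allowed). Let `a_i > 0`, `D (a_1 + ... + a_m) < p`, and even
`2 D (a_1 + ... + a_m) < p` if `r > 1`.

The main case: all `P_i` are equal to one polynomial `P` with `P'(0) ≠ 0`, the `B_l` are zero, and not
all of the differences `f_i - f_j` are constant. Let `K` be the function field of the curve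
`u ^ r = t`, `w_l ^ c - w_l = g_l(t)` (assumed to be geometrically irreducible), for example
`K = k(t)`. Let `J` be the Jacobian of the curve `C : y ^ p = ∏ (P(x) + f_i(t)) ^ a_i` over `K`. Its
genus is unbounded for given `p`, because there are `m deg P` branch points, and the heights of the
branch points are also unbounded. For `P = x`, `deg f_i ≤ D` and `h = 0` this is the file
`PolynomialBranchPoints`; all positions of the curves `P(x) + f_i(t) = 0` are allowed. Example:
`y ^ 5 = (x ^ 11 - x) (x ^ 11 - x - t ^ 132 - t ^ 12)` over `𝔽₁₁(t)`, with `D = 2`.

The cohomology of `J`, induced to `k(t)`, is the sum of the parts of the characters `(j, s, lam)`,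
`0 < j < p`, `0 ≤ s < r`, `lam ∈ {0, ..., c - 1} ^ h`, of the group of the covering. No part has a
constant quotient: at infinity the inertia group acts on the part of a cluster of branch points by
characters of order divisible by `p`, or wildly. So the L-function of a part over the affine line is a
polynomial `∏ (1 - x T)` and the power sums of the `x` are the sums `wtSum` (Grothendieck): `IsWtL`
holds with the multiset `A j s lam` of the `x`. (The L-function of `J` has the local factors of the
invariants; it divides the product of these polynomials. It is the product, because the branch points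
meet over a place only with multiplicities that are sums of at most `D` powers of `c`, so that the
local monodromy has no invariants in the vanishing part.)

The general case, with different `P_i` and with `B_l ≠ 0`: `J` is the part of the Jacobian of the fibre
product `C` of `y ^ p = ∏ (P_i(x) + f_i(t)) ^ a_i` and the wildly ramified coverings
`w_l ^ c - w_l = B_l(x) + g_l(t)` of the `x`-line on which `μ_p` acts without invariants; one has to
assume that no part has a constant quotient.

Theorem: (1) the product `wtPoly` of these polynomials has the logarithmic coefficients given by the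
numbers of points of the surface `X : y ^ p = ∏ (P_i(x) + f_i(u ^ r)) ^ a_i`,
`w_l ^ c - w_l = B_l(x) + g_l(u ^ r)`, and of its quotient `X / μ_p`;
(2) it does not vanish at `ζ / q` for any root of unity `ζ`, `q = |k|`. So `L(J, T)` does not vanish at
`T = 1 / q` (`s = 1`), also over all finite extensions of `k`: the group `J(K k')` is finite, and (Milne,
Kato-Trihan) the group Sha is finite and the formula holds, for all finite extensions `k'` of `k`.

The proof: the `c`-adic absolute value of the sums is estimated by Gauss sums. An exponential sum
`∑ ψ(g(t))` with `g` of weight at most `D` has absolute value at most `|q| ^ (1 / D)`, because the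
absolute value of a Gauss sum does not change if the character is replaced by its `c`-th power, and the
sums `∑ ψ(P(x))` with `P` additive are `0` or `q`. -/
theorem result (p r c D : ℕ) (hp : p.Prime) (hr : 0 < r) (hrp : r.Coprime p)
    [Fact c.Prime] (hpc : p ∣ c - 1)
    (k : Type) [Field k] [Fintype k] [CharP k c] (z : k) (hz : IsPrimitiveRoot z (p * r))
    (E : Type) [Field E] [CharZero E] [IsAlgClosed E] (μ ν : E) (hμ : IsPrimitiveRoot μ (p * r))
    (hν : IsPrimitiveRoot ν c) (m h : ℕ) (hD : 1 ≤ D)
    (P : Fin m → k[X]) (hP : ∀ i, IsAdditive c (P i))
    (f : Fin m → k[X]) (hf : ∀ i, HasWeight c D (f i))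
    (a : Fin m → ℕ) (ha : ∀ i, 0 < a i) (ha2 : (if r = 1 then D else 2 * D) * ∑ i, a i < p)
    (B : Fin h → k[X]) (hB : ∀ l, IsAdditive c (B l))
    (g : Fin h → k[X]) (hg : ∀ l, HasWeight c D (g l))
    (A : ℕ → ℕ → (Fin h → Fin c) → Multiset E)
    (hA : ∀ j s lam, 0 < j → j < p → s < r →
      IsWtL k p r c P f a B g z μ ν j s lam (A j s lam)) :
    (∀ (L : Type) [Field L] [Fintype L] [Algebra k L],
      ∑ j ∈ Finset.Ico 1 p, ∑ s ∈ Finset.range r, ∑ lam : Fin h → Fin c,
          ((A j s lam).map fun x => x ^ Module.finrank k L).sum
        = (wtPoints L p r c (fun i => (P i).map (algebraMap k L))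
              (fun i => (f i).map (algebraMap k L)) a (fun l => (B l).map (algebraMap k L))
              (fun l => (g l).map (algebraMap k L)) : E)
          - (wtQuot L r c (fun l => (B l).map (algebraMap k L))
              (fun l => (g l).map (algebraMap k L)) : E)) ∧
    ∀ (ζ : E) (M : ℕ), 0 < M → ζ ^ M = 1 →
      (wtPoly p r c h A).eval (ζ * (Fintype.card k : E)⁻¹) ≠ 0 :=
  wt_main hp hr hrp hpc k hz hμ hν hD P hP f hf a ha ha2 B hB g hg A hA

end Pool.Agent.Results.MP_60d5ce_nt.AdditivePolynomialFibrations
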