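import Pool.Agent.J4.H42.PrC

/-!
The Tate conjecture in all codimensions, over number fields and over finite fields, for products of
any number of surfaces `y ^ n = ∏ (x ^ e - f_l(u ^ r)) ^ a_l` of pairwise coprime orders `n e r`.
-/

set_option autoImplicit false

namespace Pool.Agent.Results.MP_021685_ag.ProductsOfSuperellipticSurfaces

open Polynomial TensorProduct Finset Pool.Agent.W528.HI Pool.Agent.J4.H42.Pr

section defs

/-- The data of a surface `y ^ n = ∏ (x ^ e - f_l(u ^ r)) ^ a_l`, `l = 1, ..., m`, over `κ`, a bound
`D` for the degrees of the polynomials `f_l` and lower bounds `P`, `Q`, `R` for the prime factors of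
`n`, `e`, `r`. -/
structure Surface (κ : Type) [Field κ] : Type where
  n : ℕ
  e : ℕ
  r : ℕ
  m : ℕ
  f : Fin m → κ[X]
  a : Fin m → ℕ
  D : ℕ
  P : ℕ
  Q : ℕ
  R : ℕ

/-- The order of the group of roots of unity which acts on the surface. -/
def Surface.order {κ : Type} [Field κ] (S : Surface κ) : ℕ := S.n * S.e * S.r

/-- The conditions on the surface: `n ≥ 2`, `e`, `r` are pairwise coprime, `n e r` divides `c - 1`,
and `D ((a_1 + ... + a_m) / P + 1 / Q) + 1 / R < 1`. -/
structure Surface.IsAdmissible {κ : Type} [Field κ] (c : ℕ) (S : Surface κ) : Prop where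
  two_le : 2 ≤ S.n
  e_pos : 0 < S.e
  r_pos : 0 < S.r
  coprime_en : S.e.Coprime S.n
  coprime_rn : S.r.Coprime S.n
  coprime_er : S.e.Coprime S.r
  one_le_P : 1 ≤ S.P
  one_le_Q : 1 ≤ S.Q
  one_le_R : 1 ≤ S.R
  primes_n : ∀ l : ℕ, l.Prime → l ∣ S.n → S.P ≤ l
  primes_e : ∀ l : ℕ, l.Prime → l ∣ S.e → S.Q ≤ l
  primes_r : ∀ l : ℕ, l.Prime → l ∣ S.r → S.R ≤ l
  char : S.order ∣ c - 1
  one_le_D : 1 ≤ S.D
  degree : ∀ l, (S.f l).natDegree ≤ S.D
  exponent : ∀ l, 0 < S.a l
  bound : S.D * (S.Q * S.R * ∑ l, S.a l + S.P * S.R) + S.P * S.Q < S.P * S.Q * S.R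

/-- The number of points over `L` of the affine surface `y ^ n = ∏ (x ^ e - f_l(u ^ r)) ^ a_l`. -/
noncomputable def Surface.points {κ : Type} [Field κ] (S : Surface κ) (L : Type) [Field L]
    [Algebra κ L] : ℕ :=
  triPoints L S.n S.e S.r (fun l => (S.f l).map (algebraMap κ L)) S.a

/-- The characters `(j, s₁, s₂)`, `1 ≤ j < n`, `0 ≤ s₁ < e`, `0 ≤ s₂ < r`, of the roots of unity
acting on `(y, x, u)`. -/
abbrev Surface.Char {κ : Type} [Field κ] (S : Surface κ) : Type :=
  Fin (S.n - 1) × Fin S.e × Fin S.r

variable {κ : Type} [Field κ] {E G : Type} [Field E] [Group G]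

/-- The cohomology groups `H k` of degree `2 k` of a surface (zero for `k ≥ 3`), with the action
`ρ k` of the Galois group `G` and the spaces `A k` spanned by the classes of the algebraic cycles of
codimension `k` over the algebraic closure. -/
structure Spaces (E G : Type) [Field E] [Group G] : Type 1 where
  H : ℕ → Type
  [addCommGroup : ∀ k, AddCommGroup (H k)]
  [module : ∀ k, Module E (H k)]
  ρ : ∀ k, Representation E G (H k)
  A : ∀ k, Submodule E (H k)

attribute [instance] Spaces.addCommGroup Spaces.module

/-- The parts `V χ` belonging to the characters `χ` of the cohomology with compact supports of degree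
two of the open subset `y ≠ 0` of the surface, the Frobenius `Φ χ` and the maps `cl χ` to the
cohomology of degree two of the smooth projective model. -/
structure Parts (S : Surface κ) (X : Spaces E G) : Type 1 where
  V : S.Char → Type
  [addCommGroup : ∀ χ, AddCommGroup (V χ)]
  [module : ∀ χ, Module E (V χ)]
  [finite : ∀ χ, FiniteDimensional E (V χ)]
  Φ : ∀ χ, Module.End E (V χ)
  cl : ∀ χ, V χ →ₗ[E] X.H 1

attribute [instance] Parts.addCommGroup Parts.module Parts.finite

/-- Some power of `φ`, with exponent `s`, acts by `q ^ (s k)` on the classes of the algebraic cycles of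
codimension `k`. -/
def Spaces.FiniteOrder (X : Spaces E G) (φ : G) (q : ℕ) : Prop :=
  ∀ k, ∃ s : ℕ, 0 < s ∧ ∀ v ∈ X.A k, (X.ρ k φ ^ s) v = ((q : E) ^ (s * k)) • v

/-- The cohomology of degree two is generated by classes of algebraic cycles and the parts `V χ`. -/
def Parts.Generates {S : Surface κ} {X : Spaces E G} (Y : Parts S X) : Prop :=
  X.A 1 ⊔ ⨆ χ, LinearMap.range (Y.cl χ) = ⊤

/-- The Frobenius on the parts and `φ` are compatible. -/
def Parts.Equivariant {S : Surface κ} {X : Spaces E G} (Y : Parts S X) (φ : G) : Prop :=
  ∀ χ v, Y.cl χ (Y.Φ χ v) = X.ρ 1 φ (Y.cl χ v)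

/-- The traces of the powers of `Φ χ` are the character sums belonging to `χ`, with the root of unity
`z` in `κ` corresponding to `μ`. -/
def Parts.HasTraces [Fintype κ] {S : Surface κ} {X : Spaces E G} (Y : Parts S X) (z : κ) (μ : E) :
    Prop :=
  ∀ χ, TriTrace κ S.n S.e S.r S.f S.a z μ (χ.1 + 1) χ.2.1 χ.2.2 (Y.Φ χ)

/-- The trace of the `n`-th power of the Frobenius on the sum of the parts. -/
noncomputable def Parts.trace {S : Surface κ} {X : Spaces E G} (Y : Parts S X) (n : ℕ) : E :=
  ∑ χ, LinearMap.trace E (Y.V χ) (Y.Φ χ ^ n)

/-- The properties of the cohomology of the smooth projective model of the surface: the classes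
of algebraic cycles fill the cohomology of degree `2 k`, `k ≠ 1`, the cohomology of degree two is
generated by them and by the images of the `V χ`; the Frobenius `φ` has finite order up to `q ^ k` on
the classes of cycles of codimension `k`, and is compatible with the `Φ χ`; the traces of the powers
of `Φ χ` are character sums (Grothendieck-Lefschetz). -/
structure IsCohomology [Fintype κ] (S : Surface κ) (z : κ) (μ : E) (φ : G) (X : Spaces E G)
    (Y : Parts S X) : Prop where
  full : ∀ k, k ≠ 1 → X.A k = ⊤
  generates : Y.Generates
  finite_order : X.FiniteOrder φ (Fintype.card κ)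
  equivariant : Y.Equivariant φ
  lefschetz : Y.HasTraces z μ

variable {ι : Type} [Fintype ι]

/-- The tensor product of the cohomology groups of degree `2 d_i` of the factors. -/
def TensorCohomology (X : ι → Spaces E G) (d : ι → ℕ) : Type := ⨂[E] i, (X i).H (d i)

noncomputable instance (X : ι → Spaces E G) (d : ι → ℕ) : AddCommGroup (TensorCohomology X d) := by
  unfold TensorCohomology; infer_instance

noncomputable instance (X : ι → Spaces E G) (d : ι → ℕ) : Module E (TensorCohomology X d) := by
  unfold TensorCohomology; infer_instance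

/-- The action of the Galois group on the tensor product. -/
noncomputable def tensorAction (X : ι → Spaces E G) (d : ι → ℕ) (g : G) :
    Module.End E (TensorCohomology X d) :=
  PiTensorProduct.map fun i => (X i).ρ (d i) g

/-- The space spanned by the classes of the products `Z_1 × ... × Z_s` of algebraic cycles of
codimensions `d_i` on the factors. -/
noncomputable def tensorClasses (X : ι → Spaces E G) (d : ι → ℕ) :
    Submodule E (TensorCohomology X d) :=
  Submodule.span E {t | ∃ a : ∀ i, (X i).H (d i), (∀ i, a i ∈ (X i).A (d i)) ∧ t = ⨂ₜ[E] i, a i}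

/-- The cohomology of degree `2 j` of the product of the surfaces (Künneth formula; the surfaces have
no cohomology of odd degree): the sum over the `d` with `∑ d_i = j` of the tensor products of the
cohomology groups of degree `2 d_i` of the factors. -/
def ProductCohomology (X : ι → Spaces E G) (j : ℕ) : Type :=
  ∀ d : {d : ι → ℕ // ∑ i, d i = j}, TensorCohomology X d.1

noncomputable instance (X : ι → Spaces E G) (j : ℕ) : AddCommGroup (ProductCohomology X j) := by
  unfold ProductCohomology; infer_instance

noncomputable instance (X : ι → Spaces E G) (j : ℕ) : Module E (ProductCohomology X j) := by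
  unfold ProductCohomology; infer_instance

/-- The action of the Galois group on the cohomology of degree `2 j` of the product. -/
noncomputable def productAction (X : ι → Spaces E G) (j : ℕ) (g : G) :
    Module.End E (ProductCohomology X j) :=
  LinearMap.pi fun d : {d : ι → ℕ // ∑ i, d i = j} => tensorAction X d.1 g ∘ₗ LinearMap.proj d

/-- The space spanned by the classes of the products `Z_1 × ... × Z_s` of algebraic cycles of
codimensions `d_i` on the factors, for all `d` with `∑ d_i = j`. -/
noncomputable def productClasses (X : ι → Spaces E G) (j : ℕ) :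
    Submodule E (ProductCohomology X j) :=
  Submodule.pi Set.univ fun d : {d : ι → ℕ // ∑ i, d i = j} => tensorClasses X d.1

/-- Every `v` on which some subgroup of finite index acts by `ε ^ j` is a combination of products
of algebraic cycles on the factors. -/
def Tate (X : ι → Spaces E G) (ε : G →* E) (j : ℕ) : Prop :=
  ∀ (G' : Subgroup G), G'.FiniteIndex → ∀ v : ProductCohomology X j,
    (∀ g ∈ G', productAction X j g v = ε g ^ j • v) → v ∈ productClasses X j

/-- All generalized eigenvectors of `φ ^ r` for the eigenvalue `q ^ (r j)` are combinations of products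
of algebraic cycles on the factors. -/
def StrongTate (X : ι → Spaces E G) (φ : G) (q j r : ℕ) : Prop :=
  (productAction X j φ ^ r).maxGenEigenspace ((q : E) ^ (r * j)) ≤ productClasses X j

end defs

/-- **The Tate conjecture for products of superelliptic surfaces in all codimensions.**

Let `k` be a number field or a finite field (or any finitely generated field), `X_i` for `i` in a
finite set a smooth projective model of the surface `y ^ n = ∏ (x ^ e - f_l(u ^ r)) ^ a_l`
(`n = n_i`, ...), where the `f_l` are polynomials of degree at most `D` over `k`, not all constant and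
either equal or with not all differences constant, `n ≥ 2`, `e`, `r` pairwise coprime with all prime
factors at least `P`, `Q`, `R`, and `D ((a_1 + ... + a_m) / P + 1 / Q) + 1 / R < 1`. Let the orders
`n_i e_i r_i` be pairwise coprime. The characteristic of `k` is zero or congruent to `1` modulo all
the orders.

Geometry (not formalised): let `U_i` be the open set `y ≠ 0` of the affine surface and `χ` a character of
the group of roots of unity acting on `(y, x, u)` which is not trivial on the `n`-th roots of unity. The
`χ`-part of the cohomology with compact supports of the fibres over the `u`-line is concentrated in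
degree one, and the inertia group at `u = ∞` acts on it through characters with exponents
`j S / n + s₁ T / e + s₂ / r`, `0 ≤ S ≤ D (a_1 + ... + a_m)`, `0 ≤ T ≤ D`, none of which is trivial
under the conditions above. So `H^i_c(U_i)_χ = 0` for `i ≠ 2`, `X_i` has no cohomology of odd degree, and
its cohomology of degree two is the sum of the space spanned by the classes of curves (the curves
outside `U_i`, and the inverse images of the curves on the quotient by the `n`-th roots of unity, a
rational surface) and of the images of the `V_(i, χ) = H^2_c(U_i)_χ`. By the Grothendieck-Lefschetz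
formula the traces of the powers of the Frobenius on `V_(i, χ)` are the sums `triSum`. In the case of a
number field `φ` is a Frobenius element of a place where everything has good reduction, with residue
field `κ` of characteristic `c` congruent to `1` modulo all the orders (there are infinitely many).
So `IsCohomology` holds. The root `z_i` of unity in `κ` corresponds to the root of unity `μ_i` in the
field of coefficients `E`, an algebraic closure of the field of `ℓ`-adic numbers.

Theorem.
(1) The sum over the `χ` of the traces of the powers of the Frobenius is the number of points of the affine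
surface minus `|L| ^ 2`.
(2) (`StrongTate`) For all `j` and all `r ≥ 1` the generalized eigenspace of `φ ^ r` for the eigenvalue `q ^ (r j)`,
`q = |κ|`, on the cohomology of degree `2 j` of `∏ X_i` is contained in the space spanned by the
products of algebraic cycles on the factors.
(3) (`Tate`) If `ε` is a character of the Galois group with `ε φ = q` (the inverse of the cyclotomic
character), every element of the cohomology of degree `2 j` of `∏ X_i` on which a subgroup of finite
index acts by `ε ^ j` is in this space.

So all Tate classes on `∏ X_i`, in all codimensions and over all finite extensions of `k`, are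
algebraic: the Tate conjecture is true for `∏ X_i`, and it is generated by divisors (and points) of the
factors. By (2) the eigenvalue `q ^ (r j)` is semisimple. -/
theorem result (c : ℕ) [Fact c.Prime] (κ : Type) [Field κ] [Fintype κ] [CharP κ c]
    (ι : Type) [Fintype ι] (S : ι → Surface κ) (hS : ∀ i, (S i).IsAdmissible c)
    (hcop : Pairwise fun i k => (S i).order.Coprime (S k).order)
    (z : ι → κ) (hz : ∀ i, IsPrimitiveRoot (z i) (S i).order)
    (E : Type) [Field E] [CharZero E] [IsAlgClosed E]
    (μ : ι → E) (hμ : ∀ i, IsPrimitiveRoot (μ i) (S i).order)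
    (G : Type) [Group G] (φ : G) (X : ι → Spaces E G) (Y : ∀ i, Parts (S i) (X i))
    (hX : ∀ i, IsCohomology (S i) (z i) (μ i) φ (X i) (Y i)) :
    (∀ i, ∀ (L : Type) [Field L] [Fintype L] [Algebra κ L],
      (Y i).trace (Module.finrank κ L) = ((S i).points L : E) - (Fintype.card L : E) ^ 2) ∧
    (∀ j r : ℕ, 0 < r → StrongTate X φ (Fintype.card κ) j r) ∧
    ∀ ε : G →* E, ε φ = Fintype.card κ → ∀ j, Tate X ε j := by
  classical
  have hN : ∀ i, 0 < (S i).order := by
    intro i
    have h1 := (hS i).two_le
    exact Nat.mul_pos (Nat.mul_pos (by omega) (hS i).e_pos) (hS i).r_pos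
  -- part (2)
  have main : ∀ j r : ℕ, 0 < r → StrongTate X φ (Fintype.card κ) j r := by
    intro j r hr v hv
    obtain ⟨k, _, _, _, R, res, eκ, Ω, hΩR, hR, hΩ, hΩz, hfe⟩ :=
      exists_common (c := c) hN hcop κ z hz μ hμ
    refine Submodule.mem_pi.2 ?_
    rintro d -
    have h1 : v d ∈ Module.End.maxGenEigenspace
        ((PiTensorProduct.map fun i => (X i).ρ (d.1 i) φ :
          Module.End E (⨂[E] i, (X i).H (d.1 i))) ^ r)
        ((Fintype.card κ : E) ^ (r * j)) := by
      have h0 : v d ∈ (tensorAction X d.1 φ ^ r).maxGenEigenspace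
          ((Fintype.card κ : E) ^ (r * j)) := by
        refine maxGen_map _ _ (LinearMap.proj d) ?_ hv
        intro x
        clear hv hr
        induction r with
        | zero => rfl
        | succ r ih =>
          rw [pow_succ', pow_succ', Module.End.mul_apply, Module.End.mul_apply, ← ih]
          rfl
      exact h0
    have hj : (Fintype.card κ : E) ^ (r * ∑ i, d.1 i) = (Fintype.card κ : E) ^ (r * j) := by
      rw [d.2]
    rw [← hj] at h1
    refine maxGen_le' (fun i => (X i).ρ (d.1 i) φ) (fun i => (X i).A (d.1 i)) (Fintype.card κ : E)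
      (fun i => d.1 i) (fun i => (hX i).finite_order (d.1 i))
      (fun i => IsSmall κ (S i).order (μ i) (Ω i) (d.1 i)) ?_
      (fun x T hT hx hx' t ht => small_prod hfe _ x T hT hx hx' t ht) r hr h1
    intro i
    have hall : ∀ kk : ℕ, (X i).A kk ⊔ Submodule.span E {m | ∃ x,
        IsSmall κ (S i).order (μ i) (Ω i) kk x ∧
          m ∈ Module.End.maxGenEigenspace ((X i).ρ kk φ) x} = ⊤ := by
      intro kk
      by_cases hkk : kk = 1
      · subst hkk
        rw [eq_top_iff, ← (show (X i).A 1 ⊔ ⨆ χ, LinearMap.range ((Y i).cl χ) = ⊤ from (hX i).generates)]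
        refine sup_le_sup_left (iSup_le fun χ => ?_) _
        refine range_le ((Y i).Φ χ) ((X i).ρ 1 φ) ((Y i).cl χ) ((hX i).equivariant χ) _ ?_
        intro x hx
        exact surface_small (hS i).two_le (hS i).e_pos (hS i).r_pos (hS i).coprime_en
          (hS i).coprime_rn (hS i).coprime_er (hS i).one_le_P (hS i).one_le_Q (hS i).one_le_R
          (hS i).primes_n (hS i).primes_e (hS i).primes_r (hS i).char κ (hz i) (hμ i)
          (hS i).one_le_D (S i).f (hS i).degree (S i).a (hS i).exponent (hS i).bound hR eκ
          (hΩ i) (hΩR i) (hΩz i) _ _ _ χ.1.2 χ.2.1.2 χ.2.2.2 ((Y i).Φ χ) ((hX i).lefschetz χ) x hx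
      · rw [(hX i).full kk hkk, top_sup_eq]
    exact hall (d.1 i)
  refine ⟨?_, main, ?_⟩
  · intro i L _ _ _
    have hn0 : 0 < (S i).n := by have := (hS i).two_le; omega
    have hcopa : ∀ l, ((S i).a l).Coprime (S i).n := by
      intro l
      refine Pool.Agent.W528.HF.coprime_of_primes ((hS i).exponent l) fun p hp hpn => ?_
      have h1 := (hS i).primes_n p hp hpn
      have h2 : (S i).a l ≤ ∑ l, (S i).a l :=
        single_le_sum (f := (S i).a) (fun _ _ => Nat.zero_le _) (mem_univ l)
      have h3 : (S i).Q * (S i).R * ∑ l, (S i).a l < (S i).Q * (S i).R * (S i).P := by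
        calc (S i).Q * (S i).R * ∑ l, (S i).a l
            ≤ (S i).Q * (S i).R * ∑ l, (S i).a l + (S i).P * (S i).R := Nat.le_add_right _ _
          _ ≤ (S i).D * ((S i).Q * (S i).R * ∑ l, (S i).a l + (S i).P * (S i).R) :=
              Nat.le_mul_of_pos_left _ (hS i).one_le_D
          _ ≤ (S i).D * ((S i).Q * (S i).R * ∑ l, (S i).a l + (S i).P * (S i).R)
              + (S i).P * (S i).Q := Nat.le_add_right _ _
          _ < (S i).P * (S i).Q * (S i).R := (hS i).bound
          _ = (S i).Q * (S i).R * (S i).P := by ring
      have h4 : ∑ l, (S i).a l < (S i).P := Nat.lt_of_mul_lt_mul_left h3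
      omega
    have hPT := Pool.Agent.W15.HI.PT.main Pool.Agent.W924.HC.PR.main
      Pool.Agent.W528.HC.mu_main
    have hzL : IsPrimitiveRoot (algebraMap κ L (z i)) ((S i).n * (S i).e * (S i).r) :=
      (hz i).map_of_injective (algebraMap κ L).injective
    unfold Surface.points Parts.trace
    rw [← hPT L (S i).n (S i).e (S i).r (algebraMap κ L (z i)) hn0 (hS i).e_pos (hS i).r_pos hzL E
      (μ i) (hμ i) (S i).m _ (S i).a fun l => ⟨(hS i).exponent l, hcopa l⟩]
    rw [Fintype.sum_prod_type]
    have h3 : ∀ g : ℕ → E, ∑ j ∈ Ico 1 (S i).n, g j = ∑ l : Fin ((S i).n - 1), g (l + 1) := by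
      intro g
      rw [Finset.sum_Ico_eq_sum_range, ← Fin.sum_univ_eq_sum_range (fun i => g (1 + i))]
      exact sum_congr rfl fun i _ => by rw [add_comm]
    rw [h3]
    refine sum_congr rfl fun j _ => ?_
    rw [Fintype.sum_prod_type, ← Fin.sum_univ_eq_sum_range (fun s₁ => ∑ s₂ ∈ range (S i).r,
      triSum L E (S i).n (S i).e (S i).r (fun l => ((S i).f l).map (algebraMap κ L)) (S i).a
        (algebraMap κ L (z i)) (μ i) (j + 1) s₁ s₂) (S i).e]
    refine sum_congr rfl fun s₁ _ => ?_
    rw [← Fin.sum_univ_eq_sum_range (fun s₂ =>
      triSum L E (S i).n (S i).e (S i).r (fun l => ((S i).f l).map (algebraMap κ L)) (S i).a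
        (algebraMap κ L (z i)) (μ i) (j + 1) s₁ s₂) (S i).r]
    exact sum_congr rfl fun s₂ _ => (hX i).lefschetz (j, s₁, s₂) L
  · intro ε hε j G' hG' v hv
    obtain ⟨m, hm, hmG⟩ : ∃ m : ℕ, 0 < m ∧ φ ^ m ∈ G' :=
      ⟨_, Nat.factorial_pos G'.index, Subgroup.pow_mem_of_index_ne_zero_of_dvd
        hG'.index_ne_zero φ (fun i hi hi' => Nat.dvd_factorial hi hi')⟩
    refine main j m hm ?_
    rw [Module.End.mem_maxGenEigenspace]
    refine ⟨1, ?_⟩
    have h1 := hv _ hmG
    have h2 : productAction X j (φ ^ m) = productAction X j φ ^ m := by
      have h4 : ∀ (d : ι → ℕ) (n : ℕ), tensorAction X d (φ ^ n) = tensorAction X d φ ^ n := by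
        intro d n
        unfold tensorAction
        refine Eq.trans ?_ (PiTensorProduct.map_pow (fun i => (X i).ρ (d i) φ) n)
        simp only [map_pow]
        rfl
      have h3 : ∀ n : ℕ, ∀ x d, (productAction X j φ ^ n) x d = (tensorAction X d.1 φ ^ n) (x d) := by
        intro n
        induction n with
        | zero =>
          intro x d
          rfl
        | succ n ih =>
          intro x d
          rw [pow_succ, Module.End.mul_apply, ih, pow_succ, Module.End.mul_apply]
          rfl
      refine LinearMap.ext fun x => funext fun d => ?_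
      rw [h3, ← h4]
      rfl
    rw [pow_one, LinearMap.sub_apply, LinearMap.smul_apply, Module.End.one_apply, ← h2, h1, map_pow,
      hε, ← pow_mul, sub_self]

end Pool.Agent.Results.MP_021685_ag.ProductsOfSuperellipticSurfaces
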