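import Pool.Agent.J4.H42.PrI

/-!
Parshin's conjecture for a variety `Z` implies Parshin's conjecture for the products of `Z` with
superelliptic curves of pairwise coprime degrees.
-/

set_option autoImplicit false

namespace Pool.Agent.Results.MP_27fd67_ag.ProductsWithSuperellipticCurves

open Polynomial TensorProduct Finset Pool.Agent.J4.H42.Pr Pool.Agent.J4.H42.Wt

section defs

/-- The data of a curve `y ^ n = ∏ (P_l(x) + b_l) ^ a_l`, `l = 1, ..., m`, over `κ`. -/
structure Curve (κ : Type) [Field κ] : Type where
  n : ℕ
  m : ℕ
  P : Fin m → κ[X]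
  b : Fin m → κ
  a : Fin m → ℕ

/-- The conditions on the curve over a field of characteristic `c`: `n ≥ 2` divides `c - 1`, the
exponents of the polynomials `P_l` are powers of `c`, and `2 (a_1 + ... + a_m)` is smaller than the
smallest prime factor of `n`. -/
structure Curve.IsAdmissible {κ : Type} [Field κ] (c : ℕ) (C : Curve κ) : Prop where
  two_le : 2 ≤ C.n
  char : C.n ∣ c - 1
  additive : ∀ l, IsAdditive c (C.P l)
  exponent : ∀ l, 0 < C.a l
  bound : 2 * ∑ l, C.a l < C.n.minFac

/-- The number of points over `L` of the affine curve `y ^ n = ∏ (P_l(x) + b_l) ^ a_l`. -/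
noncomputable def Curve.points {κ : Type} [Field κ] (C : Curve κ) (L : Type) [Field L]
    [Algebra κ L] : ℕ :=
  Set.ncard {v : L × L | v.2 ^ C.n =
    ∏ l, (((C.P l).map (algebraMap κ L)).eval v.1 + algebraMap κ L (C.b l)) ^ C.a l}

variable {κ : Type} [Field κ] {E : Type} [Field E]

/-- The cohomology groups `H k`, `k = 0, 1, 2`, of the smooth projective model of the curve, with the
Frobenius `φ k`; the parts `V j` of the first cohomology group with compact supports of the open set
`y ≠ 0` which belong to the characters `ζ ↦ ζ ^ (j + 1)` of the group of the `n`-th roots of unity,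
the Frobenius `Φ j` on them and the maps `cl j` to the first cohomology group. -/
structure CurveCohomology (C : Curve κ) (E : Type) [Field E] : Type 1 where
  H : ℕ → Type
  [addCommGroup : ∀ k, AddCommGroup (H k)]
  [module : ∀ k, Module E (H k)]
  [finite : ∀ k, FiniteDimensional E (H k)]
  φ : ∀ k, Module.End E (H k)
  V : Fin (C.n - 1) → Type
  [addCommGroupV : ∀ j, AddCommGroup (V j)]
  [moduleV : ∀ j, Module E (V j)]
  [finiteV : ∀ j, FiniteDimensional E (V j)]
  Φ : ∀ j, Module.End E (V j)
  cl : ∀ j, V j →ₗ[E] H 1

attribute [instance] CurveCohomology.addCommGroup CurveCohomology.module CurveCohomology.finite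
  CurveCohomology.addCommGroupV CurveCohomology.moduleV CurveCohomology.finiteV

/-- The properties of the cohomology of the curve: the Frobenius is the identity on `H 0` and the
multiplication by `q` on `H 2`; the first cohomology group is generated by the images of the parts
`V j`, compatibly with the Frobenius; the traces of the powers of the Frobenius on `V j` are the
character sums (Grothendieck-Lefschetz); the eigenvalues on `H 1` are Weil numbers of absolute value
`q ^ (1 / 2)` (Weil). -/
structure IsCohomology [CharZero E] [Fintype κ] (C : Curve κ) (z : κ) (μ : E)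
    (Y : CurveCohomology C E) : Prop where
  zero : Y.φ 0 = 1
  two : Y.φ 2 = (Fintype.card κ : E) • 1
  generates : ⨆ j, LinearMap.range (Y.cl j) = ⊤
  equivariant : ∀ j v, Y.cl j (Y.Φ j v) = Y.φ 1 (Y.cl j v)
  lefschetz : ∀ j : Fin (C.n - 1), CurveTrace κ C.n C.P C.b C.a z μ (j + 1) (Y.Φ j)
  weil : ∀ α, (Y.φ 1).HasEigenvalue α → IsWeilH (Fintype.card κ) 1 α

/-- The trace of the `k`-th power of the Frobenius on the sum of the parts. -/
noncomputable def CurveCohomology.trace {C : Curve κ} (Y : CurveCohomology C E) (k : ℕ) : E :=
  ∑ j, LinearMap.trace E (Y.V j) (Y.Φ j ^ k)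

/-- The cohomology groups `H m` of degree `m` of a smooth projective variety over `κ`, with the
Frobenius, and the rational motivic cohomology groups `HM a b = H^a(Z, ℚ(b))`. -/
structure Variety (E : Type) [Field E] : Type 1 where
  H : ℕ → Type
  [addCommGroup : ∀ k, AddCommGroup (H k)]
  [module : ∀ k, Module E (H k)]
  [finite : ∀ k, FiniteDimensional E (H k)]
  φ : ∀ k, Module.End E (H k)
  HM : ℤ → ℤ → Type
  [addCommGroupHM : ∀ a b, AddCommGroup (HM a b)]

attribute [instance] Variety.addCommGroup Variety.module Variety.finite Variety.addCommGroupHM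

/-- Parshin's conjecture: the motivic cohomology groups `H^a(Z, ℚ(b))` vanish for `a ≠ 2 b`. -/
def Variety.Parshin (Z : Variety E) : Prop := ∀ a b : ℤ, a ≠ 2 * b → ∀ x : Z.HM a b, x = 0

/-- The eigenvalues of the Frobenius on the cohomology groups are Weil numbers (all conjugates in `ℂ`
have absolute value `q ^ (m / 2)` in degree `m`), whose minimal polynomials remain irreducible over the
field of the `N`-th roots of unity. -/
def Variety.IsIndependent [CharZero E] (Z : Variety E) (q N : ℕ) : Prop :=
  ∀ m, ∀ γ : E, (Z.φ m).HasEigenvalue γ → IsWeilH q m γ ∧ IsIndep N γ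

/-- The rational motivic cohomology groups `HM a b = H^a(X, ℚ(b))` of the product `X` of `Z` and of
`n` curves, the groups `part d a b` of its summands `h(Z) ⊗ h^(d_1)(C_1) ⊗ ... ⊗ h^(d_n)(C_n)`, the
projections and the action of the Frobenius. -/
structure ProductMotive (n : ℕ) : Type 1 where
  HM : ℤ → ℤ → Type
  [addCommGroup : ∀ a b, AddCommGroup (HM a b)]
  part : (Fin n → Fin 3) → ℤ → ℤ → Type
  [addCommGroupPart : ∀ d a b, AddCommGroup (part d a b)]
  [modulePart : ∀ d a b, Module ℚ (part d a b)]
  proj : ∀ d a b, HM a b →+ part d a b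
  frob : ∀ d a b, Module.End ℚ (part d a b)

attribute [instance] ProductMotive.addCommGroup ProductMotive.addCommGroupPart
  ProductMotive.modulePart

variable {n : ℕ} {C : Fin n → Curve κ}

/-- The part of degree `m + ∑ d i` of the cohomology of `h(Z) ⊗ h^(d_1)(C_1) ⊗ ... ⊗ h^(d_n)(C_n)`. -/
abbrev Summand (Y : ∀ i, CurveCohomology (C i) E) (Z : Variety E) (d : Fin n → Fin 3)
    (m : ℕ) : Type :=
  (⨂[E] i, (Y i).H (d i)) ⊗[E] Z.H m

/-- The Frobenius on it. -/
noncomputable def summandFrobenius (Y : ∀ i, CurveCohomology (C i) E) (Z : Variety E)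
    (d : Fin n → Fin 3) (m : ℕ) : Module.End E (Summand Y Z d m) :=
  TensorProduct.map (PiTensorProduct.map fun i => (Y i).φ (d i)) (Z.φ m)

/-- The polynomial `P` annihilates the Frobenius on the motivic cohomology of the summand `d`, and its
roots are eigenvalues of the Frobenius on the cohomology of this summand. -/
def IsAnnihilator (Y : ∀ i, CurveCohomology (C i) E) (Z : Variety E) [CharZero E]
    (X : ProductMotive n) (d : Fin n → Fin 3) (P : ℚ[X]) : Prop :=
  (∀ α : E, aeval α P = 0 → ∃ m, (summandFrobenius Y Z d m).HasEigenvalue α) ∧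
  ∀ a b, aeval (X.frob d a b) P = 0

/-- The number of the `i` with `d i = 2`. -/
def twist (d : Fin n → Fin 3) : ℤ := (univ.filter fun i => d i = 2).card

/-- The properties of the motivic cohomology of the product: the decomposition of the motive of the
product; the Frobenius acts on `H^a(-, ℚ(b))` as the multiplication by `q ^ b`; the motives are
finite-dimensional in the sense of Kimura (a polynomial in the Frobenius which is homologically trivial
is nilpotent); `h^0` of a curve is the unit motive and `h^2` is the Lefschetz motive. -/
structure IsProductMotive [CharZero E] (q : ℕ) (Y : ∀ i, CurveCohomology (C i) E)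
    (Z : Variety E) (X : ProductMotive n) : Prop where
  decomposition : ∀ a b (x : X.HM a b), (∀ d, X.proj d a b x = 0) → x = 0
  frobenius : ∀ d a b (y : X.part d a b), X.frob d a b y = (q : ℚ) ^ b • y
  kimura : ∀ d, ∃ P : ℚ[X], IsAnnihilator Y Z X d P
  lefschetz : ∀ d : Fin n → Fin 3, (∀ i, d i ≠ 1) → ∀ a b,
    ∃ f : X.part d a b →+ Z.HM (a - 2 * twist d) (b - twist d), Function.Injective f

/-- The groups `K m` are the algebraic `K`-groups of the product (`m ≥ 1`): up to torsion they embed
into the sum over `b` of the groups `H^(2 b - m)(X, ℚ(b)) = CH^b(X, m) ⊗ ℚ`. -/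
def IsKTheory (X : ProductMotive n) (K : ℕ → Type) [∀ m, AddCommGroup (K m)] : Prop :=
  ∀ m, 1 ≤ m → ∃ f : ∀ b : ℤ, K m →+ X.HM (2 * b - m) b,
    ∀ x, (∀ b, f b x = 0) → IsOfFinAddOrder x

/-- If the generalized eigenvectors for the `x` with the property `Sm` generate the space, all
eigenvalues have this property. -/
theorem eig_of_span {M : Type} [AddCommGroup M] [Module E M] (F : Module.End E M)
    (Sm : E → Prop)
    (h : Submodule.span E {m | ∃ x, Sm x ∧ m ∈ F.maxGenEigenspace x} = ⊤) (lam : E)
    (hlam : F.HasEigenvalue lam) : Sm lam := by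
  by_contra hcon
  have hdec : ⨆ (ν) (_ : ν ≠ lam), F.maxGenEigenspace ν = ⊤ := by
    rw [eq_top_iff, ← h]
    refine Submodule.span_le.2 ?_
    rintro v ⟨x, hx, hv⟩
    exact Submodule.mem_iSup_of_mem x (Submodule.mem_iSup_of_mem
      (fun h0 => hcon (h0 ▸ hx)) hv)
  obtain ⟨v, hv⟩ := hlam.exists_hasEigenvector
  have h1 : v ∈ F.maxGenEigenspace lam := by
    rw [Module.End.mem_maxGenEigenspace]
    refine ⟨1, ?_⟩
    rw [pow_one, LinearMap.sub_apply, LinearMap.smul_apply, Module.End.one_apply, hv.apply_eq_smul,
      sub_self]
  have h2 := (Module.End.independent_maxGenEigenspace F lam).le_bot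
    (Submodule.mem_inf.2 ⟨h1, by rw [hdec]; exact Submodule.mem_top⟩)
  exact hv.2 ((Submodule.mem_bot E).1 h2)

end defs

/-- **Parshin's conjecture for products with superelliptic curves of pairwise coprime degrees.**

Let `κ` be a finite field with `q` elements and of characteristic `c`, and let `C_i`, `i < n`, be the
smooth projective model of the curve `y ^ n = ∏ (P_l(x) + b_l) ^ a_l` (`n = n_i`, ...) over `κ`, where
`n_i ≥ 2` divides `c - 1`, the `P_l` are additive polynomials (all exponents are powers of `c`, for
example `P_l = x` or `P_l = x ^ c - x`), `b_l ∈ κ`, `a_l > 0`, and `2 (a_1 + ... + a_m)` is smaller than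
the smallest prime factor of `n_i`. The degrees `n_i` are pairwise coprime, and `N` is their product.
The genus of the curves with given `n_i` is unbounded, because the number of the branch points is the
sum of the degrees of the `P_l`. Example: `y ^ n = (x ^ c - x) (x ^ c - x - 1)`, `n` prime to `6`.

Let `Z` be a smooth projective variety over `κ` whose rational Chow motive is finite-dimensional in the
sense of Kimura (for example a variety dominated by a product of curves), such that the minimal
polynomials over `ℚ` of the eigenvalues of the Frobenius on the cohomology of `Z` remain irreducible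
over the field of the `N`-th roots of unity (they are Weil numbers by Deligne; the condition means that
the fields generated by the single eigenvalues have only `ℚ` in common with the cyclotomic field). For
example `Z` may be a point, or a product of powers of elliptic curves whose imaginary quadratic fields
`ℚ(α)` and real quadratic fields `ℚ(√q)` satisfy the condition. Let `X = Z × C_1 × ... × C_n`.

Theorem.
(1) The sum over the nontrivial characters of the traces of the powers of the Frobenius on the parts
`V j` of the cohomology of `C_i` is `|L|` minus the number of points of the affine curve.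
(2) The motivic cohomology groups `H^a(-, ℚ(b))` of the motives `h(Z) ⊗ h^(d_1)(C_1) ⊗ ... ⊗
h^(d_n)(C_n)` vanish for all `a`, `b`, if `d_i = 1` for some `i`. So the motivic cohomology of `X`
(in particular the Chow groups, `a = 2 b`) is the same as the one of the sum of twists of `Z`.
(3) If Parshin's conjecture is true for `Z` then it is true for `X`: `H^a(X, ℚ(b)) = 0` for
`a ≠ 2 b`, and `K_m(X) ⊗ ℚ = 0` for all `m ≥ 1`.

For `Z` a point, this is Parshin's conjecture for the products `C_1 × ... × C_n` of arbitrary dimension
`n` (Soulé's theorem on products of curves is restricted to dimension at most three, because it needs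
the conjecture of Tate for the product); moreover their rational Chow groups have the dimension
`binomial (n, b)`.

The hypotheses (not proved in Lean, but known): the cohomology of the curve (`IsCohomology`). Let `U_i`
be the open set `y ≠ 0` of the affine curve. For a nontrivial character of the group of the `n_i`-th
roots of unity `V_(i, j) = H^1_c(U_i)_j` is the only nonzero group, and it is mapped onto
`H^1(C_i)_j`; the traces are given by the formula of Grothendieck and Lefschetz. The root of unity
`z_i` in `κ` corresponds to `μ_i` in `E`, an algebraic closure of the field of `ℓ`-adic numbers. The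
motives (`IsProductMotive`): the decomposition `h(C_i) = h^0 + h^1 + h^2` with `h^0` the unit motive and
`h^2` the Lefschetz motive; the Frobenius acts on `H^a(-, ℚ(b))` as the multiplication by `q ^ b`
(Soulé); by the theorem of Kimura a power of the characteristic polynomial (with rational coefficients)
of the Frobenius on the cohomology of a summand annihilates the summand. The `K`-groups: Bloch, Levine.

Idea of the proof: one has to show that no product of eigenvalues of the Frobenius on the
`h^1(C_i)`, `i ∈ T ≠ ∅`, and on `h(Z)` is a power of `q`. For embeddings into the algebraic closure of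
the field of `c`-adic numbers which are independent for the different roots of unity, the eigenvalues
on `V_(i, j)` have absolute values smaller than `|q| ^ (1 / 2)`, by Stickelberger's theorem, and the
embedding can be changed on the eigenvalue of `Z` alone. -/
theorem result (c : ℕ) [Fact c.Prime] (κ : Type) [Field κ] [Fintype κ] [CharP κ c]
    (n : ℕ) (C : Fin n → Curve κ) (hC : ∀ i, (C i).IsAdmissible c)
    (hcop : Pairwise fun i k => (C i).n.Coprime (C k).n)
    (z : Fin n → κ) (hz : ∀ i, IsPrimitiveRoot (z i) (C i).n)
    (E : Type) [Field E] [CharZero E] [IsAlgClosed E]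
    (μ : Fin n → E) (hμ : ∀ i, IsPrimitiveRoot (μ i) (C i).n)
    (Y : ∀ i, CurveCohomology (C i) E) (hY : ∀ i, IsCohomology (C i) (z i) (μ i) (Y i))
    (Z : Variety E) (hZ : Z.IsIndependent (Fintype.card κ) (∏ i, (C i).n))
    (X : ProductMotive n) (hX : IsProductMotive (Fintype.card κ) Y Z X) :
    (∀ i, ∀ (L : Type) [Field L] [Fintype L] [Algebra κ L],
      (Y i).trace (Module.finrank κ L) = (Fintype.card L : E) - ((C i).points L : E)) ∧
    (∀ d : Fin n → Fin 3, (∃ i, d i = 1) → ∀ a b (y : X.part d a b), y = 0) ∧
    (Z.Parshin → (∀ a b : ℤ, a ≠ 2 * b → ∀ x : X.HM a b, x = 0) ∧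
      ∀ (K : ℕ → Type) [∀ m, AddCommGroup (K m)], IsKTheory X K → ∀ m, 1 ≤ m → ∀ x : K m,
        IsOfFinAddOrder x) := by
  classical
  have hN : ∀ i, 0 < (C i).n := fun i => by have := (hC i).two_le; omega
  have hκ : 1 < Fintype.card κ := Fintype.one_lt_card
  -- the parts with `d i = 1` for some `i`
  have key : ∀ d : Fin n → Fin 3, (∃ i, d i = 1) → ∀ a b (y : X.part d a b), y = 0 := by
    intro d hd a b y
    obtain ⟨P, hP1, hP2⟩ := hX.kimura d
    obtain ⟨k, _, _, _, R, res, eκ, Ω, hΩR, hR, hΩ, hΩz, hfe⟩ :=
      exists_common (c := c) hN hcop κ z hz μ hμ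
    have hne : P.eval ((Fintype.card κ : ℚ) ^ b) ≠ 0 := by
      intro h0
      have h1 : aeval ((Fintype.card κ : E) ^ b) P = 0 := by
        have h2 : ((Fintype.card κ : E) ^ b) = algebraMap ℚ E ((Fintype.card κ : ℚ) ^ b) := by
          rw [map_zpow₀, map_natCast]
        rw [h2, aeval_algebraMap_apply, ← coe_aeval_eq_eval] at *
        rw [show (aeval ((Fintype.card κ : ℚ) ^ b)) P = 0 from h0, map_zero]
      obtain ⟨m, hm⟩ := hP1 _ h1
      obtain ⟨x, γ, hx, hγ, hprod⟩ := eigen_prod (fun i => (Y i).φ (d i)) (Z.φ m) hm
      refine prod_ne hκ hN hcop hμ hfe (fun i => (d i : ℕ)) m x (univ.filter fun i => d i = 1)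
        ?_ ?_ ?_ ?_ γ (hZ m γ hγ).1 (hZ m γ hγ).2 b hprod.symm
      · obtain ⟨i, hi⟩ := hd
        exact ⟨i, mem_filter.2 ⟨mem_univ _, hi⟩⟩
      · intro i hi
        have hdi : d i = 1 := (mem_filter.1 hi).2
        have hxi := hx i
        rw [hdi] at hxi ⊢
        refine eig_of_span ((Y i).φ 1) (fun α => IsSmallH κ (C i).n (μ i) (Ω i) 1 α) ?_ _ hxi
        rw [eq_top_iff, ← (hY i).generates]
        refine iSup_le fun j => ?_
        refine range_le ((Y i).Φ j) ((Y i).φ 1) ((Y i).cl j) ((hY i).equivariant j) _ ?_
        intro α hα
        exact curve_small (hC i).two_le (hC i).char κ (hz i) (hμ i) (C i).P (hC i).additive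
          (C i).b (C i).a (hC i).bound hR eκ (hΩ i) (hΩR i) (hΩz i) (j + 1) (by omega)
          (by omega) ((Y i).Φ j) ((hY i).lefschetz j) α hα
      · intro i hi
        have hdi : d i = 1 := (mem_filter.1 hi).2
        have hxi := hx i
        rw [hdi] at hxi ⊢
        exact (hY i).weil _ hxi
      · intro i hi
        have hdi : d i ≠ 1 := fun h => hi (mem_filter.2 ⟨mem_univ _, h⟩)
        have h2 : d i = 0 ∨ d i = 2 := by omega
        have hxi := hx i
        obtain ⟨v, hv⟩ := hxi.exists_hasEigenvector
        have hv1 := hv.apply_eq_smul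
        have hv2 := hv.2
        rcases h2 with h2 | h2
        · refine ⟨0, ?_, by rw [h2]; rfl⟩
          revert v
          rw [h2]
          intro v _ hv1 hv2
          have h3 : (Y i).φ 0 v = x i • v := hv1
          rw [(hY i).zero, Module.End.one_apply] at h3
          have h4 : (1 - x i) • v = 0 := by rw [sub_smul, one_smul, ← h3, sub_self]
          rcases smul_eq_zero.1 h4 with h5 | h5
          · rw [pow_zero]
            exact (sub_eq_zero.1 h5).symm
          · exact absurd h5 hv2
        · refine ⟨1, ?_, by rw [h2]; rfl⟩
          revert v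
          rw [h2]
          intro v _ hv1 hv2
          have h3 : (Y i).φ 2 v = x i • v := hv1
          rw [(hY i).two, LinearMap.smul_apply, Module.End.one_apply] at h3
          have h4 : ((Fintype.card κ : E) - x i) • v = 0 := by rw [sub_smul, ← h3, sub_self]
          rcases smul_eq_zero.1 h4 with h5 | h5
          · rw [pow_one]
            exact (sub_eq_zero.1 h5).symm
          · exact absurd h5 hv2
    have hfr : ∀ (Q : ℚ[X]), aeval (X.frob d a b) Q y = Q.eval ((Fintype.card κ : ℚ) ^ b) • y := by
      intro Q
      have hpow : ∀ k : ℕ, (X.frob d a b ^ k) y = (((Fintype.card κ : ℚ) ^ b) ^ k) • y := by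
        intro k
        induction k with
        | zero => simp
        | succ k ih =>
          rw [pow_succ', Module.End.mul_apply, ih, map_smul, hX.frobenius, smul_smul, pow_succ]
      rw [aeval_eq_sum_range, eval_eq_sum_range, LinearMap.sum_apply, sum_smul]
      refine sum_congr rfl fun k _ => ?_
      rw [LinearMap.smul_apply, hpow, smul_smul]
    have h1 := hfr P
    rw [hP2, LinearMap.zero_apply] at h1
    rcases smul_eq_zero.1 h1.symm with h2 | h2
    · exact absurd h2 hne
    · exact h2
  refine ⟨?_, key, ?_⟩
  · intro i L _ _ _
    have hzL : IsPrimitiveRoot (algebraMap κ L (z i)) (C i).n :=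
      (hz i).map_of_injective (algebraMap κ L).injective
    have hap : ∀ l, 0 < (C i).a l ∧ ((C i).a l).Coprime (C i).n := by
      intro l
      refine ⟨(hC i).exponent l,
        Pool.Agent.W528.HF.coprime_of_primes ((hC i).exponent l) fun p hp hpn => ?_⟩
      have h1 := single_le_sum (f := (C i).a) (fun _ _ => Nat.zero_le _) (mem_univ l)
      have h2 := (hC i).bound
      have h3 := Nat.minFac_le_of_dvd hp.two_le hpn
      omega
    have htot := curve_total (hC i).two_le hzL (hμ i) (fun l => ((C i).P l).map (algebraMap κ L))
      (fun l => algebraMap κ L ((C i).b l)) (C i).a hap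
    have hpts : curvePoints L (C i).n (fun l => ((C i).P l).map (algebraMap κ L))
      (fun l => algebraMap κ L ((C i).b l)) (C i).a = (C i).points L := rfl
    rw [hpts] at htot
    have h3 : ∀ g : ℕ → E, ∑ j ∈ Ico 1 (C i).n, g j = ∑ l : Fin ((C i).n - 1), g (l + 1) := by
      intro g
      rw [Finset.sum_Ico_eq_sum_range, ← Fin.sum_univ_eq_sum_range (fun i => g (1 + i))]
      exact sum_congr rfl fun i _ => by rw [add_comm]
    rw [h3] at htot
    unfold CurveCohomology.trace
    rw [sum_congr rfl fun j _ => (hY i).lefschetz j L, sum_neg_distrib, htot, neg_sub]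
  · intro hP
    have hzero : ∀ a b : ℤ, a ≠ 2 * b → ∀ x : X.HM a b, x = 0 := by
      intro a b hab x
      refine hX.decomposition a b x fun d => ?_
      by_cases hd : ∃ i, d i = 1
      · exact key d hd a b _
      · push Not at hd
        obtain ⟨f, hf⟩ := hX.lefschetz d hd a b
        apply hf
        rw [map_zero]
        exact hP _ _ (by omega) _
    refine ⟨hzero, ?_⟩
    intro K _ hK m hm x
    obtain ⟨f, hf⟩ := hK m hm
    exact hf x fun b => hzero _ _ (by omega) _

end Pool.Agent.Results.MP_27fd67_ag.ProductsWithSuperellipticCurves
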